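import Pool.Agent.H5.FAD.Pair

/-!
# LEMMA SUM: fullness is additive

`DF p T V x Z` is the deficit of the entropy of the cell of `x` in the fine body `T`, given the cell
of `x` in the body `V` and the context `Z`, against the volume. `full_sum`: the deficit of every
body contained in the sum of the bodies `V k` is at most the sum of their deficits, up to a
constant.
-/

set_option autoImplicit false

namespace Pool.FAD

open Matrix
open Finset Real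
open Pool.Agent.H49.Ent Pool.Agent.H32.Dense

variable {n : ℕ} {Ω ζ : Type} [Fintype Ω] {p : Ω → ℝ}

/-- The deficit of the body `V`. -/
noncomputable def DF (p : Ω → ℝ) (T V : Ω → Matrix (Fin n) (Fin n) ℝ) (x : Ω → Fin n → ℝ)
    (Z : Ω → ζ) : ℝ :=
  Ex p (fun ω => lv (V ω) - lv (T ω)) -
    CH p (fun ω => cl (T ω) (x ω)) (fun ω => (cl (V ω) (x ω), Z ω))

/-- Deficits are almost nonnegative. -/
theorem DF_ge (h0 : ∀ ω, 0 ≤ p ω) (h1 : ∑ ω, p ω = 1) {T V : Ω → Matrix (Fin n) (Fin n) ℝ}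
    (x : Ω → Fin n → ℝ) (Z : Ω → ζ) (hdT : Det p Z T) (hdV : Det p Z V)
    (hT : ∀ ω, (T ω).det ≠ 0) (hV : ∀ ω, (V ω).det ≠ 0) {c : ℝ} (hc : 0 ≤ c)
    (h : ∀ ω, Inc c (T ω) (V ω)) : -Cc n c ≤ DF p T V x Z := by
  have := CH_count h0 h1 x Z hdT hdV hT hV hc h
  unfold DF
  linarith

/-- Monotonicity of the deficit. -/
theorem DF_mono (h0 : ∀ ω, 0 ≤ p ω) (h1 : ∑ ω, p ω = 1) {T W S : Ω → Matrix (Fin n) (Fin n) ℝ}
    (x : Ω → Fin n → ℝ) (Z : Ω → ζ) (hdW : Det p Z W) (hdS : Det p Z S)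
    (hW : ∀ ω, (W ω).det ≠ 0) (hS : ∀ ω, (S ω).det ≠ 0) {a : ℝ} (ha : 0 ≤ a)
    (h : ∀ ω, Inc a (W ω) (S ω)) : DF p T W x Z ≤ DF p T S x Z + Cc n a := by
  have h2 := CH_count h0 h1 x Z hdW hdS hW hS ha h
  have h3 := mono_abs h0 (fun ω => cl (T ω) (x ω)) (fun ω => cl (W ω) (x ω))
    (fun ω => cl (S ω) (x ω)) Z
  have e1 : Ex p (fun ω => lv (S ω) - lv (T ω)) =
      Ex p (fun ω => lv (S ω) - lv (W ω)) + Ex p (fun ω => lv (W ω) - lv (T ω)) := by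
    rw [← Ex_add]
    congr 1
    funext ω
    ring
  unfold DF
  rw [e1]
  linarith

/-- The constant of the pair lemma. -/
noncomputable def Cp (n : ℕ) (c : ℝ) : ℝ :=
  Cc n (n * c) + 3 * (n * Real.log (2 * (n + 1) + 1)) + n * Real.log (2 * (c + 1) + 1)

/-- **Supermodularity.** -/
theorem DF_pair (h0 : ∀ ω, 0 ≤ p ω) (h1 : ∑ ω, p ω = 1)
    {T A B : Ω → Matrix (Fin n) (Fin n) ℝ} (x : Ω → Fin n → ℝ) (Z : Ω → ζ) (hdT : Det p Z T)
    (hdA : Det p Z A) (hdB : Det p Z B) (hT : ∀ ω, (T ω).det ≠ 0) (hA : ∀ ω, (A ω).det ≠ 0)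
    (hB : ∀ ω, (B ω).det ≠ 0) {c : ℝ} (hc : 0 ≤ c) (hTA : ∀ ω, Inc c (T ω) (A ω))
    (hTB : ∀ ω, Inc c (T ω) (B ω)) :
    ∃ S : Ω → Matrix (Fin n) (Fin n) ℝ, Det p Z S ∧ (∀ ω, (S ω).det ≠ 0) ∧
      (∀ ω, Inc n (A ω) (S ω)) ∧ (∀ ω, Inc n (B ω) (S ω)) ∧
      DF p T S x Z ≤ DF p T A x Z + DF p T B x Z + Cp n c := by
  classical
  obtain ⟨f, hf⟩ : ∃ f : Matrix (Fin n) (Fin n) ℝ × Matrix (Fin n) (Fin n) ℝ →
      Matrix (Fin n) (Fin n) ℝ × Matrix (Fin n) (Fin n) ℝ, ∀ P, P.1.det ≠ 0 → P.2.det ≠ 0 →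
      IsPair P.1 P.2 (f P).1 (f P).2 := by
    have : ∀ P : Matrix (Fin n) (Fin n) ℝ × Matrix (Fin n) (Fin n) ℝ, ∃ Q :
        Matrix (Fin n) (Fin n) ℝ × Matrix (Fin n) (Fin n) ℝ, P.1.det ≠ 0 → P.2.det ≠ 0 →
        IsPair P.1 P.2 Q.1 Q.2 := by
      intro P
      by_cases hP : P.1.det ≠ 0 ∧ P.2.det ≠ 0
      · obtain ⟨S, M, k⟩ := exists_pair P.1 P.2 hP.1 hP.2
        exact ⟨(S, M), fun _ _ => k⟩
      · exact ⟨(1, 1), fun a b => absurd ⟨a, b⟩ hP⟩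
    choose f hf using this
    exact ⟨f, hf⟩
  obtain ⟨S, hS⟩ : ∃ S : Ω → Matrix (Fin n) (Fin n) ℝ, S = fun ω => (f (A ω, B ω)).1 :=
    ⟨_, rfl⟩
  obtain ⟨M, hM⟩ : ∃ M : Ω → Matrix (Fin n) (Fin n) ℝ, M = fun ω => (f (A ω, B ω)).2 :=
    ⟨_, rfl⟩
  have key : ∀ ω, IsPair (A ω) (B ω) (S ω) (M ω) := by
    intro ω
    rw [hS, hM]
    exact hf (A ω, B ω) (hA ω) (hB ω)
  have hdS : Det p Z S := by
    intro ω ω' a b e
    rw [hS]
    simp only
    rw [hdA ω ω' a b e, hdB ω ω' a b e]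
  have hdM : Det p Z M := by
    intro ω ω' a b e
    rw [hM]
    simp only
    rw [hdA ω ω' a b e, hdB ω ω' a b e]
  have dS : ∀ ω, (S ω).det ≠ 0 := fun ω => (key ω).1
  have dM : ∀ ω, (M ω).det ≠ 0 := fun ω => (key ω).2.1
  have lSM : ∀ ω, lv (S ω) + lv (M ω) = lv (A ω) + lv (B ω) := fun ω => (key ω).2.2.1
  have iAS : ∀ ω, Inc n (A ω) (S ω) := fun ω => (key ω).2.2.2.1
  have iBS : ∀ ω, Inc n (B ω) (S ω) := fun ω => (key ω).2.2.2.2.1
  have iTM : ∀ ω, Inc (n * c) (T ω) (M ω) := fun ω =>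
    (key ω).2.2.2.2.2.2.2.1 c hc (T ω) (hTA ω) (hTB ω)
  have near := fun ω => (key ω).2.2.2.2.2.2.2.2
  refine ⟨S, hdS, dS, iAS, iBS, ?_⟩
  have c1 := sup_abs h0 (fun ω => cl (T ω) (x ω)) (fun ω => cl (A ω) (x ω))
    (fun ω => cl (B ω) (x ω)) (fun ω => cl (S ω) (x ω)) (fun ω => cl (M ω) (x ω)) Z
  have c2 := CH_inc h0 h1 x Z hdA hdS hA iAS
  have c3 := CH_inc h0 h1 x Z hdB hdS hB iBS
  have c4 := CH_inc h0 h1 x Z hdT hdA hT hTA
  have c5 := CH_count h0 h1 x Z hdT hdM hT dM (mul_nonneg (Nat.cast_nonneg n) hc) iTM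
  have c6 : CH p (fun ω => cl (M ω) (x ω))
      (fun ω => (cl (A ω) (x ω), (cl (B ω) (x ω), Z ω))) ≤
      n * Real.log (2 * (n + 1) + 1) := by
    have key := CH_le_vec h0 h1 (fun ω => cl (M ω) (x ω))
      (fun ω => (cl (A ω) (x ω), (cl (B ω) (x ω), Z ω))) (fun _ => (n : ℝ) + 1) (by
        intro ω ω' a b e k
        have e1 := Prod.ext_iff.mp e
        have e2 := Prod.ext_iff.mp e1.2
        have e3 : A ω = A ω' := hdA ω ω' a b e2.2
        have e4 : B ω = B ω' := hdB ω ω' a b e2.2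
        have e5 : M ω = M ω' := hdM ω ω' a b e2.2
        have e6 : cl (A ω) (x ω) = cl (A ω) (x ω') := by
          have := e1.1
          simp only at this
          rw [this, e3]
        have e7 : cl (B ω) (x ω) = cl (B ω) (x ω') := by
          have := e2.1
          simp only at this
          rw [this, e4]
        have := near ω (x ω) (x ω') e6 e7 k
        rwa [← e5])
    rwa [Ex_const h1] at key
  have e1 : Ex p (fun ω => lv (S ω) - lv (T ω)) + Ex p (fun ω => lv (M ω) - lv (T ω)) =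
      Ex p (fun ω => lv (A ω) - lv (T ω)) + Ex p (fun ω => lv (B ω) - lv (T ω)) := by
    rw [← Ex_add, ← Ex_add]
    congr 1
    funext ω
    have := lSM ω
    linarith
  unfold DF Cp
  linarith

/-- The constant for `N + 1` bodies. -/
noncomputable def CS (n : ℕ) (c : ℝ) (N : ℕ) : ℝ := ∑ j ∈ range N, Cp n ((n + 1) ^ j * c)

/-- The sum of `N + 1` bodies. -/
theorem DF_sum (h0 : ∀ ω, 0 ≤ p ω) (h1 : ∑ ω, p ω = 1) {T : Ω → Matrix (Fin n) (Fin n) ℝ}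
    (x : Ω → Fin n → ℝ) (Z : Ω → ζ) (hdT : Det p Z T) (hT : ∀ ω, (T ω).det ≠ 0) {c : ℝ}
    (hc : 0 ≤ c) : ∀ (N : ℕ) (V : Fin (N + 1) → Ω → Matrix (Fin n) (Fin n) ℝ),
    (∀ k, Det p Z (V k)) → (∀ k ω, (V k ω).det ≠ 0) → (∀ k ω, Inc c (T ω) (V k ω)) →
    ∃ S : Ω → Matrix (Fin n) (Fin n) ℝ, Det p Z S ∧ (∀ ω, (S ω).det ≠ 0) ∧
      (∀ k ω, Inc ((n + 1) ^ N) (V k ω) (S ω)) ∧
      DF p T S x Z ≤ ∑ k, DF p T (V k) x Z + CS n c N := by
  intro N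
  induction N with
  | zero =>
    intro V hdV hV _
    refine ⟨V 0, hdV 0, hV 0, ?_, ?_⟩
    · intro k ω i
      have hk : k = 0 := Fin.ext (by
        have := k.2
        rw [Fin.val_zero]
        omega)
      rw [hk, Matrix.nonsing_inv_mul _ (isUnit_iff_ne_zero.2 (hV 0 ω)), pow_zero]
      have : ∑ j, |(1 : Matrix (Fin n) (Fin n) ℝ) i j| = 1 := by
        rw [Finset.sum_eq_single i]
        · simp
        · intro j _ hj
          rw [Matrix.one_apply_ne hj.symm, abs_zero]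
        · intro h
          exact absurd (Finset.mem_univ i) h
      rw [this]
    · unfold CS
      simp
  | succ N ih =>
    intro V hdV hV hTV
    obtain ⟨S, a1, a2, a3, a4⟩ := ih (fun k => V k.castSucc) (fun k => hdV _) (fun k => hV _)
      (fun k => hTV _)
    have n1 : (1 : ℝ) ≤ (n : ℝ) + 1 := by
      have : (0 : ℝ) ≤ n := Nat.cast_nonneg n
      linarith
    have q1 : (1 : ℝ) ≤ ((n : ℝ) + 1) ^ N := one_le_pow₀ n1
    have b1 : ∀ ω, Inc (((n : ℝ) + 1) ^ N * c) (T ω) (S ω) := fun ω =>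
      Inc.trans (hV (Fin.castSucc 0) ω) hc (hTV _ ω) (a3 0 ω)
    have b2 : ∀ ω, Inc (((n : ℝ) + 1) ^ N * c) (T ω) (V (Fin.last (N + 1)) ω) := fun ω =>
      (hTV _ ω).mono (by
        calc c = 1 * c := (one_mul _).symm
          _ ≤ ((n : ℝ) + 1) ^ N * c := mul_le_mul_of_nonneg_right q1 hc)
    obtain ⟨S', c1, c2, c3, c4, c5⟩ := DF_pair h0 h1 x Z hdT a1 (hdV (Fin.last (N + 1))) hT a2
      (hV _) (mul_nonneg (by positivity) hc) b1 b2
    refine ⟨S', c1, c2, ?_, ?_⟩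
    · intro k ω
      refine Fin.lastCases ?_ (fun j => ?_) k
      · refine (c4 ω).mono ?_
        calc (n : ℝ) ≤ (n : ℝ) + 1 := by linarith
          _ = ((n : ℝ) + 1) ^ 1 := (pow_one _).symm
          _ ≤ ((n : ℝ) + 1) ^ (N + 1) := pow_le_pow_right₀ n1 (by omega)
      · have := Inc.trans (a2 ω) (by positivity) (a3 j ω) (c3 ω)
        refine this.mono ?_
        calc (n : ℝ) * ((n : ℝ) + 1) ^ N ≤ ((n : ℝ) + 1) * ((n : ℝ) + 1) ^ N :=
              mul_le_mul_of_nonneg_right (by linarith) (by positivity)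
          _ = ((n : ℝ) + 1) ^ (N + 1) := by ring
    · rw [Fin.sum_univ_castSucc]
      have e1 : CS n c (N + 1) = CS n c N + Cp n (((n : ℝ) + 1) ^ N * c) := by
        unfold CS
        rw [Finset.sum_range_succ]
      rw [e1]
      linarith

/-- The constant of the final statement. -/
noncomputable def CF (n : ℕ) (c b : ℝ) (N : ℕ) : ℝ :=
  CS n c N + Cc n ((N + 1) * ((n + 1) ^ N * b))

/-- **LEMMA SUM.** Let `W` be contained in the sum of the bodies `V k`. Its deficit is at most the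
sum of the deficits of the `V k`, up to a constant. -/
theorem full_sum (h0 : ∀ ω, 0 ≤ p ω) (h1 : ∑ ω, p ω = 1)
    {T W : Ω → Matrix (Fin n) (Fin n) ℝ} {N : ℕ}
    (V R : Fin (N + 1) → Ω → Matrix (Fin n) (Fin n) ℝ) (x : Ω → Fin n → ℝ) (Z : Ω → ζ)
    (hdT : Det p Z T) (hdW : Det p Z W) (hdV : ∀ k, Det p Z (V k)) (hT : ∀ ω, (T ω).det ≠ 0)
    (hW : ∀ ω, (W ω).det ≠ 0) (hV : ∀ k ω, (V k ω).det ≠ 0) {c b : ℝ} (hc : 0 ≤ c) (hb : 0 ≤ b)
    (hTV : ∀ k ω, Inc c (T ω) (V k ω)) (hWV : ∀ ω, W ω = ∑ k, V k ω * R k ω)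
    (hR : ∀ k ω i, ∑ j, |R k ω i j| ≤ b) :
    DF p T W x Z ≤ ∑ k, DF p T (V k) x Z + CF n c b N := by
  obtain ⟨S, a1, a2, a3, a4⟩ := DF_sum h0 h1 x Z hdT hT hc N V hdV hV hTV
  have b1 : ∀ ω, Inc (((N : ℝ) + 1) * (((n : ℝ) + 1) ^ N * b)) (W ω) (S ω) := by
    intro ω i
    rw [hWV, Finset.mul_sum]
    calc ∑ j, |(∑ k, (S ω)⁻¹ * (V k ω * R k ω)) i j| ≤
          ∑ j, ∑ k, |((S ω)⁻¹ * V k ω * R k ω) i j| := by
          refine Finset.sum_le_sum fun j _ => ?_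
          rw [Matrix.sum_apply]
          refine (Finset.abs_sum_le_sum_abs _ _).trans (le_of_eq ?_)
          exact Finset.sum_congr rfl fun k _ => by rw [Matrix.mul_assoc]
      _ = ∑ k, ∑ j, |((S ω)⁻¹ * V k ω * R k ω) i j| := Finset.sum_comm
      _ ≤ ∑ _k : Fin (N + 1), (((n : ℝ) + 1) ^ N * b) :=
          Finset.sum_le_sum fun k _ => row_mul hb (a3 k ω i) (hR k ω)
      _ = ((N : ℝ) + 1) * (((n : ℝ) + 1) ^ N * b) := by
          simp
  have b2 := DF_mono (T := T) h0 h1 x Z hdW a1 hW a2 (by positivity) b1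
  unfold CF
  linarith

end Pool.FAD
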