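import Pool.Agent.H5.FAD.Sum
import Pool.Agent.H90.STK.Defs

/-!
# LEMMA SUM for frames

`slab K I P`: the columns of `P` with index in `I` have length `1`, the others `2 ^ (-K)`.
`full_span`: if `x` is full to `K` digits along the span of the columns `I k` of `P k` for every
`k`, then it is full along the span of the columns `J` of `Q`, if these are combinations of the
former with bounded coefficients.
-/

set_option autoImplicit false

namespace Pool.FAD

open Matrix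
open Finset Real
open Pool.Agent.H49.Ent Pool.Agent.H32.Dense Pool.STK

variable {n : ℕ} {Ω ζ β : Type} [Fintype Ω] {p : Ω → ℝ}

/-! ### Labels instead of cells -/

/-- A label finer than the cells of `V`. -/
theorem DF_le_label (h0 : ∀ ω, 0 ≤ p ω) (h1 : ∑ ω, p ω = 1)
    {T V : Ω → Matrix (Fin n) (Fin n) ℝ} (x : Ω → Fin n → ℝ) (Y : Ω → β) (Z : Ω → ζ)
    (hdV : Det p Z V) {a : ℝ}
    (hY : ∀ ω ω', 0 < p ω → 0 < p ω' → Y ω = Y ω' → Z ω = Z ω' →
      ∀ i, |((V ω)⁻¹ *ᵥ x ω) i - ((V ω)⁻¹ *ᵥ x ω') i| ≤ a) :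
    DF p T V x Z ≤ Ex p (fun ω => lv (V ω) - lv (T ω)) -
      CH p (fun ω => cl (T ω) (x ω)) (fun ω => (Y ω, Z ω)) +
      n * Real.log (2 * (a + 1) + 1) := by
  have h2 := mono_abs h0 (fun ω => cl (T ω) (x ω)) (fun ω => cl (V ω) (x ω)) Y Z
  have h3 := CH_le_vec h0 h1 (fun ω => cl (V ω) (x ω)) (fun ω => (Y ω, Z ω))
    (fun _ => a + 1) (by
      intro ω ω' k k' e i
      have e1 := Prod.ext_iff.mp e
      have e2 : V ω = V ω' := hdV ω ω' k k' e1.2
      simp only [cl]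
      rw [← e2]
      exact floor_sub_le (hY ω ω' k k' e1.1 e1.2 i))
  rw [Ex_const h1] at h3
  unfold DF
  linarith

/-- A label coarser than the cells of `V`. -/
theorem le_label (h0 : ∀ ω, 0 ≤ p ω) (T V : Ω → Matrix (Fin n) (Fin n) ℝ)
    (x : Ω → Fin n → ℝ) (Y : Ω → β) (Z : Ω → ζ) :
    Ex p (fun ω => lv (V ω) - lv (T ω)) - DF p T V x Z ≤
      CH p (fun ω => cl (T ω) (x ω)) (fun ω => (Y ω, Z ω)) +
        CH p Y (fun ω => (cl (V ω) (x ω), Z ω)) := by
  have h2 := mono_abs h0 (fun ω => cl (T ω) (x ω)) Y (fun ω => cl (V ω) (x ω)) Z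
  unfold DF
  linarith

/-! ### The fine body and slabs -/

/-- The body `2 ^ (-K) [0,1) ^ n`. -/
noncomputable def fb (n K : ℕ) : Matrix (Fin n) (Fin n) ℝ := diagonal fun _ => ((2 : ℝ) ^ K)⁻¹

/-- A slab: the columns of `P` in `I` with length one, the others with length `2 ^ (-K)`. -/
noncomputable def slab (K : ℕ) (I : Finset (Fin n)) (P : Matrix (Fin n) (Fin n) ℝ) :
    Matrix (Fin n) (Fin n) ℝ := P * diagonal fun i => if i ∈ I then 1 else ((2 : ℝ) ^ K)⁻¹

theorem sl_pos (K : ℕ) (I : Finset (Fin n)) (i : Fin n) :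
    (0 : ℝ) < (if i ∈ I then 1 else ((2 : ℝ) ^ K)⁻¹) := by
  split_ifs
  · exact one_pos
  · positivity

theorem det_fb (n K : ℕ) : (fb n K).det ≠ 0 := det_diag fun _ => by positivity

theorem det_slab (K : ℕ) (I : Finset (Fin n)) {P : Matrix (Fin n) (Fin n) ℝ} (hP : P.det ≠ 0) :
    (slab K I P).det ≠ 0 := by
  unfold slab
  rw [Matrix.det_mul]
  exact mul_ne_zero hP (det_diag (sl_pos K I))

theorem lv_fb (n K : ℕ) : lv (fb n K) = -((n : ℝ) * (K * Real.log 2)) := by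
  unfold lv fb
  rw [Matrix.det_diagonal, Finset.prod_const, Finset.card_univ, Fintype.card_fin,
    abs_of_pos (by positivity), Real.log_pow, Real.log_inv, Real.log_pow]
  ring

theorem lv_slab (K : ℕ) (I : Finset (Fin n)) {P : Matrix (Fin n) (Fin n) ℝ} (hP : P.det ≠ 0) :
    lv (slab K I P) = lv P - ((n : ℝ) - I.card) * (K * Real.log 2) := by
  have hd : 0 < ∏ i : Fin n, (if i ∈ I then 1 else ((2 : ℝ) ^ K)⁻¹) :=
    Finset.prod_pos fun i _ => sl_pos K I i
  unfold lv slab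
  rw [Matrix.det_mul, Matrix.det_diagonal, abs_mul, abs_of_pos hd,
    Real.log_mul (abs_pos.2 hP).ne' hd.ne', Real.log_prod (fun i _ => (sl_pos K I i).ne')]
  have e1 : ∑ i : Fin n, Real.log (if i ∈ I then 1 else ((2 : ℝ) ^ K)⁻¹) =
      ∑ i ∈ univ \ I, (-(K * Real.log 2)) := by
    rw [← Finset.sum_sdiff (Finset.subset_univ I)]
    have e2 : ∑ i ∈ I, Real.log (if i ∈ I then 1 else ((2 : ℝ) ^ K)⁻¹) = 0 := by
      refine Finset.sum_eq_zero fun i hi => ?_
      rw [if_pos hi, Real.log_one]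
    rw [e2, add_zero]
    refine Finset.sum_congr rfl fun i hi => ?_
    rw [if_neg (Finset.mem_sdiff.1 hi).2, Real.log_inv, Real.log_pow]
  rw [e1, Finset.sum_const, Finset.card_sdiff_of_subset (Finset.subset_univ I), Finset.card_univ,
    Fintype.card_fin, nsmul_eq_mul, Nat.cast_sub (by
      have := Finset.card_le_univ I
      rwa [Fintype.card_fin] at this)]
  ring

theorem inv_slab (K : ℕ) (I : Finset (Fin n)) (P : Matrix (Fin n) (Fin n) ℝ) :
    (slab K I P)⁻¹ = diagonal (fun i => (if i ∈ I then 1 else ((2 : ℝ) ^ K)⁻¹)⁻¹) * P⁻¹ := by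
  unfold slab
  rw [Matrix.mul_inv_rev, inv_diag (sl_pos K I)]

theorem inc_slab (K : ℕ) (I : Finset (Fin n)) {P : Matrix (Fin n) (Fin n) ℝ} {c : ℝ}
    (h : ∀ i, ∑ j, |P⁻¹ i j| ≤ c) : Inc c (fb n K) (slab K I P) := by
  intro i
  refine le_trans (Finset.sum_le_sum fun j _ => ?_) (h i)
  rw [inv_slab]
  unfold fb
  rw [Matrix.mul_diagonal, Matrix.diagonal_mul, abs_mul, abs_mul,
    abs_of_pos (inv_pos.2 (sl_pos K I i)), abs_of_pos (by positivity : (0 : ℝ) < ((2 : ℝ) ^ K)⁻¹)]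
  have e1 : (if i ∈ I then 1 else ((2 : ℝ) ^ K)⁻¹)⁻¹ * ((2 : ℝ) ^ K)⁻¹ ≤ 1 := by
    split_ifs
    · rw [inv_one, one_mul]
      exact inv_le_one_of_one_le₀ (one_le_pow₀ (by norm_num))
    · rw [inv_inv, mul_inv_cancel₀ (by positivity)]
  calc (if i ∈ I then 1 else ((2 : ℝ) ^ K)⁻¹)⁻¹ * |P⁻¹ i j| * ((2 : ℝ) ^ K)⁻¹ =
        ((if i ∈ I then 1 else ((2 : ℝ) ^ K)⁻¹)⁻¹ * ((2 : ℝ) ^ K)⁻¹) * |P⁻¹ i j| := by ring
    _ ≤ 1 * |P⁻¹ i j| := mul_le_mul_of_nonneg_right e1 (abs_nonneg _)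
    _ = |P⁻¹ i j| := one_mul _

theorem cl_fb (K : ℕ) (x : Fin n → ℝ) : cl (fb n K) x = fl K x := by
  funext j
  unfold cl fb fl rd
  rw [inv_diag fun _ => by positivity, Matrix.mulVec_diagonal, inv_inv]

/-- **LEMMA SUM for frames.** For `k ≤ N` the label `Y k` determines `x` modulo the columns `I k`
of `P k` to precision `a 2 ^ (-K)`, and `x` is full along them up to a deficit `e k`. The columns
`J` of `Q` are combinations of the columns `I k` of `P k` with bounded coefficients. Then `x` is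
full along the columns `J` of `Q`. -/
theorem full_span (h0 : ∀ ω, 0 ≤ p ω) (h1 : ∑ ω, p ω = 1) {K N : ℕ}
    (P R : Fin (N + 1) → Ω → Matrix (Fin n) (Fin n) ℝ) (I : Fin (N + 1) → Finset (Fin n))
    (Q : Ω → Matrix (Fin n) (Fin n) ℝ) (J : Finset (Fin n)) (x : Ω → Fin n → ℝ) (Z : Ω → ζ)
    (Y : Fin (N + 1) → Ω → β) (e : Fin (N + 1) → ℝ)
    (hdQ : Det p Z Q) (hdP : ∀ k, Det p Z (P k)) (hQ : ∀ ω, (Q ω).det ≠ 0)
    (hP : ∀ k ω, (P k ω).det ≠ 0) {c b a : ℝ} (hc : 0 ≤ c) (hb : 0 ≤ b)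
    (hPi : ∀ k ω i, ∑ j, |(P k ω)⁻¹ i j| ≤ c) (hPQ : ∀ ω i, ∑ j, |((P 0 ω)⁻¹ * Q ω) i j| ≤ b)
    (hR : ∀ k ω i, ∑ j, |R k ω i j| ≤ b)
    (hJ : ∀ ω i j, j ∈ J → Q ω i j = ∑ k, ∑ l ∈ I k, P k ω i l * R k ω l j)
    (hY : ∀ k ω ω', 0 < p ω → 0 < p ω' → Y k ω = Y k ω' → Z ω = Z ω' →
      ∀ i, |((P k ω)⁻¹ *ᵥ x ω) i - ((P k ω)⁻¹ *ᵥ x ω') i| ≤
        a * (if i ∈ I k then 1 else ((2 : ℝ) ^ K)⁻¹))
    (he : ∀ k, Ex p (fun ω => lv (P k ω)) + (I k).card * (K * Real.log 2) - e k ≤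
      CH p (fun ω => fl K (x ω)) (fun ω => (Y k ω, Z ω))) :
    Ex p (fun ω => lv (Q ω)) + J.card * (K * Real.log 2) -
      (∑ k, e k + (N + 1) * (n * Real.log (2 * (a + 1) + 1)) + CF n c (b + b) N) ≤
      CH p (fun ω => fl K (x ω)) (fun ω => (cl (slab K J (Q ω)) (x ω), Z ω)) := by
  classical
  obtain ⟨V, hV⟩ : ∃ V : Fin (N + 1) → Ω → Matrix (Fin n) (Fin n) ℝ,
    V = fun k ω => slab K (I k) (P k ω) := ⟨_, rfl⟩
  have eV : ∀ k ω, V k ω = slab K (I k) (P k ω) := fun k ω => by rw [hV]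
  obtain ⟨W, hW⟩ : ∃ W : Ω → Matrix (Fin n) (Fin n) ℝ, W = fun ω => slab K J (Q ω) := ⟨_, rfl⟩
  have eW : ∀ ω, W ω = slab K J (Q ω) := fun ω => by rw [hW]
  obtain ⟨T, hT⟩ : ∃ T : Ω → Matrix (Fin n) (Fin n) ℝ, T = fun _ => fb n K := ⟨_, rfl⟩
  have eT : ∀ ω, T ω = fb n K := fun ω => by rw [hT]
  have dV : ∀ k ω, (V k ω).det ≠ 0 := fun k ω => by
    rw [eV]
    exact det_slab K _ (hP k ω)
  have dW : ∀ ω, (W ω).det ≠ 0 := fun ω => by
    rw [eW]
    exact det_slab K _ (hQ ω)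
  have dT : ∀ ω, (T ω).det ≠ 0 := fun ω => by
    rw [eT]
    exact det_fb n K
  have kV : ∀ k, Det p Z (V k) := by
    intro k ω ω' u v h
    rw [eV, eV, hdP k ω ω' u v h]
  have kW : Det p Z W := by
    intro ω ω' u v h
    rw [eW, eW, hdQ ω ω' u v h]
  have kT : Det p Z T := by
    intro ω ω' u v h
    rw [eT, eT]
  obtain ⟨R', hR'⟩ : ∃ R' : Fin (N + 1) → Ω → Matrix (Fin n) (Fin n) ℝ,
    R' = fun k ω => Matrix.of fun l j => (if j ∈ J ∧ l ∈ I k then R k ω l j else 0) +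
      (if k = 0 ∧ j ∉ J then ((V 0 ω)⁻¹ * Q ω) l j * ((2 : ℝ) ^ K)⁻¹ else 0) := ⟨_, rfl⟩
  have eR : ∀ k ω l j, R' k ω l j = (if j ∈ J ∧ l ∈ I k then R k ω l j else 0) +
      (if k = 0 ∧ j ∉ J then ((V 0 ω)⁻¹ * Q ω) l j * ((2 : ℝ) ^ K)⁻¹ else 0) := fun k ω l j => by
    rw [hR']
    rfl
  have rR : ∀ k ω i, ∑ j, |R' k ω i j| ≤ b + b := by
    intro k ω i
    have t1 : ∀ j, |R' k ω i j| ≤ |R k ω i j| + |((P 0 ω)⁻¹ * Q ω) i j| := by
      intro j
      rw [eR]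
      refine (abs_add_le _ _).trans (add_le_add ?_ ?_)
      · split_ifs
        · exact le_refl _
        · rw [abs_zero]
          exact abs_nonneg _
      · split_ifs
        · rw [eV, inv_slab, Matrix.mul_assoc, Matrix.diagonal_mul, abs_mul, abs_mul,
            abs_of_pos (inv_pos.2 (sl_pos K (I 0) i)),
            abs_of_pos (by positivity : (0 : ℝ) < ((2 : ℝ) ^ K)⁻¹)]
          have e1 : (if i ∈ I 0 then 1 else ((2 : ℝ) ^ K)⁻¹)⁻¹ * ((2 : ℝ) ^ K)⁻¹ ≤ 1 := by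
            split_ifs
            · rw [inv_one, one_mul]
              exact inv_le_one_of_one_le₀ (one_le_pow₀ (by norm_num))
            · rw [inv_inv, mul_inv_cancel₀ (by positivity)]
          calc (if i ∈ I 0 then 1 else ((2 : ℝ) ^ K)⁻¹)⁻¹ * |((P 0 ω)⁻¹ * Q ω) i j| *
                ((2 : ℝ) ^ K)⁻¹ =
                ((if i ∈ I 0 then 1 else ((2 : ℝ) ^ K)⁻¹)⁻¹ * ((2 : ℝ) ^ K)⁻¹) *
                  |((P 0 ω)⁻¹ * Q ω) i j| := by ring
            _ ≤ 1 * |((P 0 ω)⁻¹ * Q ω) i j| := mul_le_mul_of_nonneg_right e1 (abs_nonneg _)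
            _ = |((P 0 ω)⁻¹ * Q ω) i j| := one_mul _
        · rw [abs_zero]
          exact abs_nonneg _
    refine (Finset.sum_le_sum fun j _ => t1 j).trans ?_
    rw [Finset.sum_add_distrib]
    exact add_le_add (hR k ω i) (hPQ ω i)
  have sW : ∀ ω, W ω = ∑ k, V k ω * R' k ω := by
    intro ω
    ext i j
    rw [Matrix.sum_apply]
    have e1 : ∀ k, (V k ω * R' k ω) i j =
        (if j ∈ J then ∑ l ∈ I k, P k ω i l * R k ω l j else 0) +
        (if k = 0 ∧ j ∉ J then Q ω i j * ((2 : ℝ) ^ K)⁻¹ else 0) := by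
      intro k
      have e2 : (V k ω * R' k ω) i j = ∑ l, V k ω i l * (if j ∈ J ∧ l ∈ I k then R k ω l j else 0) +
          ∑ l, V k ω i l * (if k = 0 ∧ j ∉ J then ((V 0 ω)⁻¹ * Q ω) l j * ((2 : ℝ) ^ K)⁻¹
            else 0) := by
        rw [Matrix.mul_apply, ← Finset.sum_add_distrib]
        refine Finset.sum_congr rfl fun l _ => ?_
        rw [eR]
        ring
      rw [e2]
      congr 1
      · by_cases hj : j ∈ J
        · rw [if_pos hj]
          have e3 : ∀ l, V k ω i l * (if j ∈ J ∧ l ∈ I k then R k ω l j else 0) =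
              if l ∈ I k then P k ω i l * R k ω l j else 0 := by
            intro l
            by_cases hl : l ∈ I k
            · rw [if_pos ⟨hj, hl⟩, if_pos hl, eV]
              unfold slab
              rw [Matrix.mul_diagonal, if_pos hl, mul_one]
            · rw [if_neg (fun h => hl h.2), if_neg hl, mul_zero]
          rw [Finset.sum_congr rfl fun l _ => e3 l, Finset.sum_ite_mem, Finset.univ_inter]
        · rw [if_neg hj]
          refine Finset.sum_eq_zero fun l _ => ?_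
          rw [if_neg (fun h => hj h.1), mul_zero]
      · by_cases hk : k = 0 ∧ j ∉ J
        · rw [if_pos hk]
          have e3 : ∀ l, V k ω i l * (if k = 0 ∧ j ∉ J then ((V 0 ω)⁻¹ * Q ω) l j *
              ((2 : ℝ) ^ K)⁻¹ else 0) = V 0 ω i l * ((V 0 ω)⁻¹ * Q ω) l j * ((2 : ℝ) ^ K)⁻¹ := by
            intro l
            rw [if_pos hk, hk.1]
            ring
          rw [Finset.sum_congr rfl fun l _ => e3 l, ← Finset.sum_mul, ← Matrix.mul_apply,
            ← Matrix.mul_assoc, Matrix.mul_nonsing_inv _ (isUnit_iff_ne_zero.2 (dV 0 ω)),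
            Matrix.one_mul]
        · rw [if_neg hk]
          refine Finset.sum_eq_zero fun l _ => ?_
          rw [if_neg hk, mul_zero]
    rw [Finset.sum_congr rfl fun k _ => e1 k, Finset.sum_add_distrib, eW]
    unfold slab
    rw [Matrix.mul_diagonal]
    by_cases hj : j ∈ J
    · have e4 : ∑ k : Fin (N + 1), (if k = 0 ∧ j ∉ J then Q ω i j * ((2 : ℝ) ^ K)⁻¹ else 0) = 0 :=
        Finset.sum_eq_zero fun k _ => if_neg fun h => h.2 hj
      rw [e4, add_zero, if_pos hj, mul_one, hJ ω i j hj]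
      refine Finset.sum_congr rfl fun k _ => ?_
      rw [if_pos hj]
    · have e4 : ∑ k : Fin (N + 1), (if j ∈ J then ∑ l ∈ I k, P k ω i l * R k ω l j else 0) = 0 :=
        Finset.sum_eq_zero fun k _ => if_neg hj
      rw [e4, zero_add, if_neg hj, Finset.sum_eq_single 0]
      · rw [if_pos ⟨rfl, hj⟩]
      · intro k _ hk
        exact if_neg fun h => hk h.1
      · intro h
        exact absurd (Finset.mem_univ _) h
  have hTV : ∀ k ω, Inc c (T ω) (V k ω) := fun k ω => by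
    rw [eT, eV]
    exact inc_slab K (I k) (hPi k ω)
  have main := full_sum h0 h1 V R' x Z kT kW kV dT dW dV hc (by linarith : (0 : ℝ) ≤ b + b) hTV sW
    rR
  have hX : (fun ω => cl (T ω) (x ω)) = fun ω => fl K (x ω) := by
    funext ω
    rw [eT, cl_fb]
  have hk : ∀ k, DF p T (V k) x Z ≤ e k + n * Real.log (2 * (a + 1) + 1) := by
    intro k
    have q1 := DF_le_label (T := T) (V := V k) h0 h1 x (Y k) Z (kV k) (a := a) (by
      intro ω ω' u v h h' i
      rw [eV, inv_slab, ← Matrix.mulVec_mulVec, ← Matrix.mulVec_mulVec, Matrix.mulVec_diagonal,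
        Matrix.mulVec_diagonal, ← mul_sub, abs_mul, abs_of_pos (inv_pos.2 (sl_pos K (I k) i))]
      have q2 := hY k ω ω' u v h h' i
      rw [inv_mul_le_iff₀ (sl_pos K (I k) i), mul_comm _ a]
      exact q2)
    rw [hX] at q1
    have q3 : Ex p (fun ω => lv (V k ω) - lv (T ω)) =
        Ex p (fun ω => lv (P k ω)) + (I k).card * (K * Real.log 2) := by
      rw [← Ex_const h1 ((I k).card * (K * Real.log 2)), ← Ex_add]
      congr 1
      funext ω
      rw [eV, eT, lv_slab K _ (hP k ω), lv_fb]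
      ring
    rw [q3] at q1
    have q4 := he k
    linarith
  have hs : ∑ k, DF p T (V k) x Z ≤ ∑ k, e k + (N + 1) * (n * Real.log (2 * (a + 1) + 1)) := by
    refine (Finset.sum_le_sum fun k _ => hk k).trans (le_of_eq ?_)
    rw [Finset.sum_add_distrib, Finset.sum_const, Finset.card_univ, Fintype.card_fin,
      nsmul_eq_mul]
    push_cast
    ring
  have hW' : DF p T W x Z = Ex p (fun ω => lv (Q ω)) + J.card * (K * Real.log 2) -
      CH p (fun ω => fl K (x ω)) (fun ω => (cl (slab K J (Q ω)) (x ω), Z ω)) := by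
    unfold DF
    rw [hX, hW]
    congr 1
    rw [← Ex_const h1 (J.card * (K * Real.log 2)), ← Ex_add]
    congr 1
    funext ω
    rw [eT, lv_slab K _ (hQ ω), lv_fb]
    ring
  rw [hW'] at main
  linarith

end Pool.FAD
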