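import Pool.Agent.H32.Dense.EntX

/-!
# Fullness is additive: the abstract form

`sup_abs`: `H(X|A) + H(X|B) ≤ H(X|S) + H(X|M) + errors` if `S` is a function of `A` and a function
of `B`, and `M` is a function of `(A,B)`, up to the errors; `A` is a function of `X`.
-/

set_option autoImplicit false

namespace Pool.FAD

open Finset Real
open Pool.Agent.H49.Ent Pool.Agent.H32.Dense

variable {Ω α β γ δ ε ζ : Type} [Fintype Ω] {p : Ω → ℝ}

/-- Monotonicity of `H(X | label)`. -/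
theorem mono_abs (h0 : ∀ ω, 0 ≤ p ω) (X : Ω → α) (A : Ω → β) (S : Ω → δ) (Z : Ω → ζ) :
    CH p X (fun ω => (S ω, Z ω)) ≤
      CH p A (fun ω => (S ω, Z ω)) + CH p X (fun ω => (A ω, Z ω)) := by
  have a1 := CH_le_add h0 X A (fun ω => (S ω, Z ω))
  have a2 : CH p X (fun ω => (A ω, (S ω, Z ω))) ≤ CH p X (fun ω => (A ω, Z ω)) := by
    refine CH_mono_cond h0 ?_
    intro ω ω' _ _ h
    have e1 := Prod.ext_iff.mp h
    have e2 := Prod.ext_iff.mp e1.2
    exact Prod.ext e1.1 e2.2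
  linarith

/-- Supermodularity of `H(X | label)`. -/
theorem sup_abs (h0 : ∀ ω, 0 ≤ p ω) (X : Ω → α) (A : Ω → β) (B : Ω → γ) (S : Ω → δ) (M : Ω → ε)
    (Z : Ω → ζ) :
    CH p X (fun ω => (A ω, Z ω)) + CH p X (fun ω => (B ω, Z ω)) ≤
      CH p X (fun ω => (S ω, Z ω)) + CH p X (fun ω => (M ω, Z ω)) +
      (CH p S (fun ω => (A ω, Z ω)) + CH p S (fun ω => (B ω, Z ω)) +
        CH p M (fun ω => (A ω, (B ω, Z ω))) + CH p A (fun ω => (X ω, Z ω))) := by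
  -- `H(A|S) + H(X|A,S) = H(X|S) + H(A|X,S)`
  have a1 : CH p (fun ω => (X ω, A ω)) (fun ω => (S ω, Z ω)) =
      CH p (fun ω => (A ω, X ω)) (fun ω => (S ω, Z ω)) := by
    refine CH_congr h0 ?_ ?_ ?_ ?_
    · intro ω ω' _ _ h
      have e1 := Prod.ext_iff.mp (Prod.ext_iff.mp h).1
      exact Prod.ext e1.2 e1.1
    · intro ω ω' _ _ h
      have e1 := Prod.ext_iff.mp (Prod.ext_iff.mp h).1
      exact Prod.ext e1.2 e1.1
    · intro ω ω' _ _ h
      exact h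
    · intro ω ω' _ _ h
      exact h
  have a2 := CH_chain h0 X A (fun ω => (S ω, Z ω))
  have a2' := CH_chain h0 A X (fun ω => (S ω, Z ω))
  have a2'' : CH p A (fun ω => (X ω, (S ω, Z ω))) ≤ CH p A (fun ω => (X ω, Z ω)) := by
    refine CH_mono_cond h0 ?_
    intro ω ω' _ _ h
    have e1 := Prod.ext_iff.mp h
    have e2 := Prod.ext_iff.mp e1.2
    exact Prod.ext e1.1 e2.2
  -- `H(X|A) ≤ H(S|A) + H(X|A,S)`
  have a3 := CH_le_add h0 X S (fun ω => (A ω, Z ω))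
  have a4 : CH p X (fun ω => (S ω, (A ω, Z ω))) ≤ CH p X (fun ω => (A ω, (S ω, Z ω))) := by
    refine CH_mono_cond h0 ?_
    intro ω ω' _ _ h
    have e1 := Prod.ext_iff.mp h
    have e2 := Prod.ext_iff.mp e1.2
    exact Prod.ext e2.1 (Prod.ext e1.1 e2.2)
  -- `H(A|B) ≤ H(A|S,B) + H(S|B)`, `H(A|S,B) ≤ H(A|S)`
  have a5 := CH_le_add h0 A S (fun ω => (B ω, Z ω))
  have a6 : CH p A (fun ω => (S ω, (B ω, Z ω))) ≤ CH p A (fun ω => (S ω, Z ω)) := by
    refine CH_mono_cond h0 ?_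
    intro ω ω' _ _ h
    have e1 := Prod.ext_iff.mp h
    have e2 := Prod.ext_iff.mp e1.2
    exact Prod.ext e1.1 e2.2
  -- `H(X|B) = H(A|B) + H(X|A,B)`
  have a7 := CH_le_add h0 X A (fun ω => (B ω, Z ω))
  -- `H(X|A,B) ≤ H(M|A,B) + H(X|M)`
  have a8 := CH_le_add h0 X M (fun ω => (A ω, (B ω, Z ω)))
  have a9 : CH p X (fun ω => (M ω, (A ω, (B ω, Z ω)))) ≤ CH p X (fun ω => (M ω, Z ω)) := by
    refine CH_mono_cond h0 ?_
    intro ω ω' _ _ h
    have e1 := Prod.ext_iff.mp h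
    have e2 := Prod.ext_iff.mp e1.2
    have e3 := Prod.ext_iff.mp e2.2
    exact Prod.ext e1.1 e3.2
  linarith

end Pool.FAD
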