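import Pool.Agent.H5.FAD.Svd
import Pool.Agent.H5.FAD.Abs
import Pool.Agent.H82.KSP.MAJ

/-!
# Cells of parallelepipeds

`cl V x` is the cell of `x` in the partition of `ℝ ^ n` into translates of `V [0,1) ^ n`.
`Inc c V W`: `V [-1,1] ^ n` is contained in `c W [-1,1] ^ n`.
-/

set_option autoImplicit false

namespace Pool.FAD

open Matrix
open Finset Real
open Pool.Agent.H49.Ent Pool.Agent.H32.Dense

variable {n : ℕ}

/-- The cell of `x`. -/
noncomputable def cl (V : Matrix (Fin n) (Fin n) ℝ) (x : Fin n → ℝ) (j : Fin n) : ℤ :=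
  ⌊(V⁻¹ *ᵥ x) j⌋

/-- `V [-1,1] ^ n` is contained in `c W [-1,1] ^ n`. -/
def Inc (c : ℝ) (V W : Matrix (Fin n) (Fin n) ℝ) : Prop := ∀ i, ∑ j, |(W⁻¹ * V) i j| ≤ c

/-- Row sums of a product. -/
theorem row_mul {a b : ℝ} {P Q : Matrix (Fin n) (Fin n) ℝ} (hb : 0 ≤ b)
    {i : Fin n} (hP : ∑ j, |P i j| ≤ a) (hQ : ∀ j, ∑ k, |Q j k| ≤ b) :
    ∑ k, |(P * Q) i k| ≤ a * b := by
  have h1 : ∀ k, |(P * Q) i k| ≤ ∑ j, |P i j| * |Q j k| := by
    intro k
    rw [Matrix.mul_apply]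
    refine (Finset.abs_sum_le_sum_abs _ _).trans (le_of_eq ?_)
    exact Finset.sum_congr rfl fun j _ => abs_mul _ _
  calc ∑ k, |(P * Q) i k| ≤ ∑ k, ∑ j, |P i j| * |Q j k| := Finset.sum_le_sum fun k _ => h1 k
    _ = ∑ j, |P i j| * ∑ k, |Q j k| := by
        rw [Finset.sum_comm]
        exact Finset.sum_congr rfl fun j _ => (Finset.mul_sum _ _ _).symm
    _ ≤ ∑ j, |P i j| * b := Finset.sum_le_sum fun j _ =>
        mul_le_mul_of_nonneg_left (hQ j) (abs_nonneg _)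
    _ = (∑ j, |P i j|) * b := (Finset.sum_mul _ _ _).symm
    _ ≤ a * b := mul_le_mul_of_nonneg_right hP hb

theorem row_one {P : Matrix (Fin n) (Fin n) ℝ} (hP : ∀ i j, |P i j| ≤ 1) (i : Fin n) :
    ∑ j, |P i j| ≤ n := by
  calc ∑ j, |P i j| ≤ ∑ _j : Fin n, (1 : ℝ) := Finset.sum_le_sum fun j _ => hP i j
    _ = n := by simp

theorem Inc.trans {a b : ℝ} {V W U : Matrix (Fin n) (Fin n) ℝ} (hW : W.det ≠ 0) (ha : 0 ≤ a)
    (h : Inc a V W) (h' : Inc b W U) : Inc (b * a) V U := by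
  intro i
  have e : U⁻¹ * V = (U⁻¹ * W) * (W⁻¹ * V) := by
    rw [Matrix.mul_assoc, ← Matrix.mul_assoc W, Matrix.mul_nonsing_inv _ (isUnit_iff_ne_zero.2 hW),
      Matrix.one_mul]
  rw [e]
  exact row_mul ha (h' i) h

theorem Inc.mono {a b : ℝ} {V W : Matrix (Fin n) (Fin n) ℝ} (h : Inc a V W) (hab : a ≤ b) :
    Inc b V W := fun i => (h i).trans hab

theorem floor_sub_le {a b c : ℝ} (h : |a - b| ≤ c) : |((⌊a⌋ - ⌊b⌋ : ℤ) : ℝ)| ≤ c + 1 := by
  have h1 := Int.floor_le a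
  have h2 := Int.lt_floor_add_one a
  have h3 := Int.floor_le b
  have h4 := Int.lt_floor_add_one b
  rw [abs_le] at h ⊢
  push_cast
  constructor <;> linarith [h.1, h.2]

theorem abs_sub_of_floor {a b : ℝ} (h : ⌊a⌋ = ⌊b⌋) : |a - b| ≤ 1 := by
  have h1 := Int.floor_le a
  have h2 := Int.lt_floor_add_one a
  have h3 := Int.floor_le b
  have h4 := Int.lt_floor_add_one b
  rw [h] at h1 h2
  rw [abs_le]
  constructor <;> linarith

/-- Two points of one cell in another body. -/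
theorem sub_near {c : ℝ} {V W : Matrix (Fin n) (Fin n) ℝ} (hV : V.det ≠ 0) (h : Inc c V W)
    {x x' : Fin n → ℝ} (e : cl V x = cl V x') (i : Fin n) :
    |(W⁻¹ *ᵥ x) i - (W⁻¹ *ᵥ x') i| ≤ c := by
  have e1 : W⁻¹ *ᵥ x - W⁻¹ *ᵥ x' = (W⁻¹ * V) *ᵥ (V⁻¹ *ᵥ x - V⁻¹ *ᵥ x') := by
    rw [← Matrix.mulVec_sub, ← Matrix.mulVec_sub, Matrix.mulVec_mulVec, Matrix.mul_assoc,
      Matrix.mul_nonsing_inv _ (isUnit_iff_ne_zero.2 hV), Matrix.mul_one]
  have e2 : (W⁻¹ *ᵥ x) i - (W⁻¹ *ᵥ x') i =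
      ∑ j, (W⁻¹ * V) i j * ((V⁻¹ *ᵥ x) j - (V⁻¹ *ᵥ x') j) := by
    have := congrFun e1 i
    rw [Pi.sub_apply] at this
    rw [this]
    rfl
  rw [e2]
  refine (Finset.abs_sum_le_sum_abs _ _).trans ((Finset.sum_le_sum fun j _ => ?_).trans (h i))
  rw [abs_mul]
  have h2 := abs_sub_of_floor (congrFun e j)
  calc |(W⁻¹ * V) i j| * |(V⁻¹ *ᵥ x) j - (V⁻¹ *ᵥ x') j| ≤ |(W⁻¹ * V) i j| * 1 :=
        mul_le_mul_of_nonneg_left h2 (abs_nonneg _)
    _ = |(W⁻¹ * V) i j| := mul_one _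

theorem cl_near {c : ℝ} {V W : Matrix (Fin n) (Fin n) ℝ} (hV : V.det ≠ 0) (h : Inc c V W)
    {x x' : Fin n → ℝ} (e : cl V x = cl V x') (i : Fin n) :
    |((cl W x i - cl W x' i : ℤ) : ℝ)| ≤ c + 1 := floor_sub_le (sub_near hV h e i)

variable {Ω ζ : Type} [Fintype Ω] {p : Ω → ℝ}

/-- A cell in a larger body. -/
theorem CH_inc (h0 : ∀ ω, 0 ≤ p ω) (h1 : ∑ ω, p ω = 1) {V W : Ω → Matrix (Fin n) (Fin n) ℝ}
    (x : Ω → Fin n → ℝ) (Z : Ω → ζ) (hdV : Det p Z V) (hdW : Det p Z W)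
    (hV : ∀ ω, (V ω).det ≠ 0) {c : ℝ} (h : ∀ ω, Inc c (V ω) (W ω)) :
    CH p (fun ω => cl (W ω) (x ω)) (fun ω => (cl (V ω) (x ω), Z ω)) ≤
      n * Real.log (2 * (c + 1) + 1) := by
  have key := CH_le_vec h0 h1 (fun ω => cl (W ω) (x ω)) (fun ω => (cl (V ω) (x ω), Z ω))
    (fun _ => c + 1) (by
      intro ω ω' a b e k
      have e1 := Prod.ext_iff.mp e
      have e2 : V ω = V ω' := hdV ω ω' a b e1.2
      have e3 : W ω = W ω' := hdW ω ω' a b e1.2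
      have e4 : cl (V ω) (x ω) = cl (V ω) (x ω') := by
        have := e1.1
        simp only at this
        rw [this, e2]
      have := cl_near (hV ω) (h ω) e4 k
      rwa [← e3])
  rwa [Ex_const h1] at key

/-- The constant of the counting lemma. -/
noncomputable def Cc (n : ℕ) (c : ℝ) : ℝ :=
  n * Real.log (2 * (n + 1) + 1) + n * Real.log (2 * (n + 1) + 1) +
    n * Real.log (2 + 3 * (n * c))

/-- Volume in logarithms. -/
noncomputable def lv (V : Matrix (Fin n) (Fin n) ℝ) : ℝ := Real.log |V.det|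

/-- One frame for two bodies. -/
theorem exists_frame (T S : Matrix (Fin n) (Fin n) ℝ) (hT : T.det ≠ 0) (hS : S.det ≠ 0) :
    ∃ (O O' : Matrix (Fin n) (Fin n) ℝ) (d : Fin n → ℝ), O * Oᵀ = 1 ∧ Oᵀ * O = 1 ∧
      O' * O'ᵀ = 1 ∧ O'ᵀ * O' = 1 ∧ (∀ i, 0 < d i) ∧ S = T * O * diagonal d * O' ∧
      lv S = lv T + ∑ i, Real.log (d i) := by
  have hu := isUnit_iff_ne_zero.2 hT
  have hA : (T⁻¹ * S).det ≠ 0 := by
    rw [Matrix.det_mul]
    refine mul_ne_zero ?_ hS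
    intro h0
    have := Matrix.det_nonsing_inv_mul_det T hu
    rw [h0, zero_mul] at this
    exact zero_ne_one this
  obtain ⟨O, O', d, h1, h2, h3, h4, h5, h6⟩ := exists_svd _ hA
  have e1 : S = T * O * diagonal d * O' := by
    have : T * (T⁻¹ * S) = S := by
      rw [← Matrix.mul_assoc, Matrix.mul_nonsing_inv _ hu, Matrix.one_mul]
    rw [← this, h6]
    simp only [Matrix.mul_assoc]
  refine ⟨O, O', d, h1, h2, h3, h4, h5, e1, ?_⟩
  have o1 : |O.det| = 1 := by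
    have := congrArg Matrix.det h1
    rw [Matrix.det_mul, Matrix.det_transpose, Matrix.det_one] at this
    have h7 : |O.det| * |O.det| = 1 := by rw [← abs_mul, this, abs_one]
    nlinarith [abs_nonneg O.det]
  have o2 : |O'.det| = 1 := by
    have := congrArg Matrix.det h3
    rw [Matrix.det_mul, Matrix.det_transpose, Matrix.det_one] at this
    have h7 : |O'.det| * |O'.det| = 1 := by rw [← abs_mul, this, abs_one]
    nlinarith [abs_nonneg O'.det]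
  have hd : 0 < ∏ i, d i := Finset.prod_pos fun i _ => h5 i
  unfold lv
  rw [e1, Matrix.det_mul, Matrix.det_mul, Matrix.det_mul, abs_mul, abs_mul, abs_mul, o1, o2,
    Matrix.det_diagonal, mul_one, mul_one, abs_of_pos hd, Real.log_mul (abs_pos.2 hT).ne' hd.ne',
    Real.log_prod (fun i _ => (h5 i).ne')]

end Pool.FAD
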