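import Pool.Agent.H5.FAD.Cell

/-!
# Counting cells, and the supermodular pair of bodies
-/

set_option autoImplicit false

namespace Pool.FAD

open Matrix
open Finset Real
open Pool.Agent.H49.Ent Pool.Agent.H32.Dense

variable {n : ℕ} {Ω ζ : Type} [Fintype Ω] {p : Ω → ℝ}

theorem inv_of_orth {O : Matrix (Fin n) (Fin n) ℝ} (h : O * Oᵀ = 1) : O⁻¹ = Oᵀ :=
  Matrix.inv_eq_right_inv h

theorem inv_diag {d : Fin n → ℝ} (hd : ∀ i, 0 < d i) :
    (diagonal d)⁻¹ = diagonal (fun i => (d i)⁻¹) := by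
  refine Matrix.inv_eq_right_inv ?_
  rw [Matrix.diagonal_mul_diagonal, ← Matrix.diagonal_one]
  congr 1
  funext i
  exact mul_inv_cancel₀ (hd i).ne'

theorem det_orth {O : Matrix (Fin n) (Fin n) ℝ} (h : O * Oᵀ = 1) : O.det ≠ 0 := by
  intro h0
  have := congrArg Matrix.det h
  rw [Matrix.det_mul, h0, zero_mul, Matrix.det_one] at this
  exact zero_ne_one this

theorem det_diag {d : Fin n → ℝ} (hd : ∀ i, 0 < d i) : (diagonal d).det ≠ 0 := by
  rw [Matrix.det_diagonal]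
  exact (Finset.prod_pos fun i _ => hd i).ne'

/-- The semiaxes are at least `1 / (n c)`. -/
theorem axis_ge {c : ℝ} {T O O' : Matrix (Fin n) (Fin n) ℝ} {d : Fin n → ℝ} (hT : T.det ≠ 0)
    (h1 : O * Oᵀ = 1) (h3 : O' * O'ᵀ = 1) (hd : ∀ i, 0 < d i)
    (h : Inc c T (T * O * diagonal d * O')) (hc : 0 ≤ c) (i : Fin n) : (d i)⁻¹ ≤ n * c := by
  have hu := isUnit_iff_ne_zero.2 hT
  have e1 : (T * O * diagonal d * O')⁻¹ * T = O'ᵀ * diagonal (fun i => (d i)⁻¹) * Oᵀ := by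
    rw [Matrix.mul_inv_rev, Matrix.mul_inv_rev, Matrix.mul_inv_rev, inv_of_orth h1,
      inv_of_orth h3, inv_diag hd]
    simp only [Matrix.mul_assoc]
    rw [Matrix.nonsing_inv_mul _ hu, Matrix.mul_one]
  have e2 : diagonal (fun i => (d i)⁻¹) =
      O' * ((T * O * diagonal d * O')⁻¹ * T) * O := by
    rw [e1]
    have h2 : Oᵀ * O = 1 := mul_eq_one_comm.1 h1
    calc diagonal (fun i => (d i)⁻¹) = (O' * O'ᵀ) * diagonal (fun i => (d i)⁻¹) * (Oᵀ * O) := by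
          rw [h3, h2, Matrix.one_mul, Matrix.mul_one]
      _ = O' * (O'ᵀ * diagonal (fun i => (d i)⁻¹) * Oᵀ) * O := by
          simp only [Matrix.mul_assoc]
  have e3 := congrFun (congrFun e2 i) i
  rw [Matrix.diagonal_apply_eq, Matrix.mul_apply] at e3
  rw [e3]
  have r1 : ∑ k, |(O' * ((T * O * diagonal d * O')⁻¹ * T)) i k| ≤ n * c :=
    row_mul hc (row_one (orth_entry h3) i) h
  refine (Finset.sum_le_sum fun k _ => ?_).trans r1
  calc (O' * ((T * O * diagonal d * O')⁻¹ * T)) i k * O k i ≤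
        |(O' * ((T * O * diagonal d * O')⁻¹ * T)) i k * O k i| := le_abs_self _
    _ = |(O' * ((T * O * diagonal d * O')⁻¹ * T)) i k| * |O k i| := abs_mul _ _
    _ ≤ |(O' * ((T * O * diagonal d * O')⁻¹ * T)) i k| * 1 :=
        mul_le_mul_of_nonneg_left (orth_entry h1 k i) (abs_nonneg _)
    _ = _ := mul_one _

/-- From the cells of `T O D` to the cells of `T O`. -/
theorem CH_axis (h0 : ∀ ω, 0 ≤ p ω) (h1 : ∑ ω, p ω = 1) {U : Ω → Matrix (Fin n) (Fin n) ℝ}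
    {d : Ω → Fin n → ℝ} (x : Ω → Fin n → ℝ) (Z : Ω → ζ) (hdU : Det p Z U) (hdd : Det p Z d)
    (hd : ∀ ω i, 0 < d ω i) {a : ℝ} (hda : ∀ ω i, (d ω i)⁻¹ ≤ a) :
    CH p (fun ω => cl (U ω) (x ω)) (fun ω => (cl (U ω * diagonal (d ω)) (x ω), Z ω)) ≤
      Ex p (fun ω => ∑ i, Real.log (d ω i)) + n * Real.log (2 + 3 * a) := by
  have h2 := Pool.KS3.CH_pi_le h0 (fun ω => cl (U ω) (x ω))
    (fun ω => (cl (U ω * diagonal (d ω)) (x ω), Z ω))
  have h3 : ∀ i, CH p (fun ω => cl (U ω) (x ω) i)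
      (fun ω => (cl (U ω * diagonal (d ω)) (x ω), Z ω)) ≤
      Ex p (fun ω => Real.log (d ω i)) + Real.log (2 + 3 * a) := by
    intro i
    have h4 := CH_le_int h0 h1 (fun ω => cl (U ω) (x ω) i)
      (fun ω => (cl (U ω * diagonal (d ω)) (x ω), Z ω)) (fun ω => d ω i + 1) (by
        intro ω ω' k k' e
        have e1 := Prod.ext_iff.mp e
        have e2 : U ω = U ω' := hdU ω ω' k k' e1.2
        have e3 : d ω = d ω' := hdd ω ω' k k' e1.2
        have e4 := congrFun e1.1 i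
        simp only [cl] at e4 ⊢
        rw [← e2, ← e3] at e4
        rw [← e2]
        refine floor_sub_le ?_
        have e5 := abs_sub_of_floor e4
        rw [Matrix.mul_inv_rev, inv_diag (hd ω), ← Matrix.mulVec_mulVec,
          ← Matrix.mulVec_mulVec, Matrix.mulVec_diagonal, Matrix.mulVec_diagonal] at e5
        have h5 : ((U ω)⁻¹ *ᵥ x ω) i - ((U ω)⁻¹ *ᵥ x ω') i =
            d ω i * ((d ω i)⁻¹ * ((U ω)⁻¹ *ᵥ x ω) i - (d ω i)⁻¹ * ((U ω)⁻¹ *ᵥ x ω') i) := by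
          have := (hd ω i).ne'
          field_simp
        rw [h5, abs_mul, abs_of_pos (hd ω i)]
        calc d ω i * _ ≤ d ω i * 1 := mul_le_mul_of_nonneg_left e5 (hd ω i).le
          _ = d ω i := mul_one _)
    refine h4.trans ?_
    have h6 : Ex p (fun ω => Real.log (2 * (d ω i + 1) + 1)) ≤
        Ex p (fun ω => Real.log (d ω i) + Real.log (2 + 3 * a)) := by
      refine Ex_mono h0 fun ω _ => ?_
      have k1 := hd ω i
      have k2 := hda ω i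
      have k3 : 0 < 2 + 3 * a := by
        have := inv_pos.2 k1
        linarith
      rw [← Real.log_mul k1.ne' k3.ne']
      refine Real.log_le_log (by linarith) ?_
      have k4 : 1 ≤ d ω i * a := by
        have := mul_le_mul_of_nonneg_left k2 k1.le
        rwa [mul_inv_cancel₀ k1.ne'] at this
      nlinarith
    rw [Ex_add, Ex_const h1] at h6
    exact h6
  calc _ ≤ _ := h2
    _ ≤ ∑ i : Fin n, (Ex p (fun ω => Real.log (d ω i)) + Real.log (2 + 3 * a)) :=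
        Finset.sum_le_sum fun i _ => h3 i
    _ = _ := by
        rw [Finset.sum_add_distrib]
        congr 1
        · unfold Ex
          rw [Finset.sum_comm]
          exact Finset.sum_congr rfl fun ω _ => (Finset.mul_sum _ _ _).symm
        · simp

/-- **Counting cells**: `T` is contained in `c S`. -/
theorem CH_count (h0 : ∀ ω, 0 ≤ p ω) (h1 : ∑ ω, p ω = 1) {T S : Ω → Matrix (Fin n) (Fin n) ℝ}
    (x : Ω → Fin n → ℝ) (Z : Ω → ζ) (hdT : Det p Z T) (hdS : Det p Z S)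
    (hT : ∀ ω, (T ω).det ≠ 0) (hS : ∀ ω, (S ω).det ≠ 0) {c : ℝ} (hc : 0 ≤ c)
    (h : ∀ ω, Inc c (T ω) (S ω)) :
    CH p (fun ω => cl (T ω) (x ω)) (fun ω => (cl (S ω) (x ω), Z ω)) ≤
      Ex p (fun ω => lv (S ω) - lv (T ω)) + Cc n c := by
  classical
  obtain ⟨fO, hfO⟩ : ∃ fO : Matrix (Fin n) (Fin n) ℝ × Matrix (Fin n) (Fin n) ℝ →
      Matrix (Fin n) (Fin n) ℝ × Matrix (Fin n) (Fin n) ℝ × (Fin n → ℝ), ∀ P, P.1.det ≠ 0 →
      P.2.det ≠ 0 → ((fO P).1 * (fO P).1ᵀ = 1 ∧ (fO P).1ᵀ * (fO P).1 = 1 ∧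
      (fO P).2.1 * (fO P).2.1ᵀ = 1 ∧ (fO P).2.1ᵀ * (fO P).2.1 = 1 ∧ (∀ i, 0 < (fO P).2.2 i) ∧
      P.2 = P.1 * (fO P).1 * diagonal (fO P).2.2 * (fO P).2.1 ∧
      lv P.2 = lv P.1 + ∑ i, Real.log ((fO P).2.2 i)) := by
    have : ∀ P : Matrix (Fin n) (Fin n) ℝ × Matrix (Fin n) (Fin n) ℝ, ∃ Q :
        Matrix (Fin n) (Fin n) ℝ × Matrix (Fin n) (Fin n) ℝ × (Fin n → ℝ), P.1.det ≠ 0 →
        P.2.det ≠ 0 → (Q.1 * Q.1ᵀ = 1 ∧ Q.1ᵀ * Q.1 = 1 ∧ Q.2.1 * Q.2.1ᵀ = 1 ∧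
        Q.2.1ᵀ * Q.2.1 = 1 ∧ (∀ i, 0 < Q.2.2 i) ∧ P.2 = P.1 * Q.1 * diagonal Q.2.2 * Q.2.1 ∧
        lv P.2 = lv P.1 + ∑ i, Real.log (Q.2.2 i)) := by
      intro P
      by_cases hP : P.1.det ≠ 0 ∧ P.2.det ≠ 0
      · obtain ⟨O, O', d, k1, k2, k3, k4, k5, k6, k7⟩ := exists_frame P.1 P.2 hP.1 hP.2
        exact ⟨(O, O', d), fun _ _ => ⟨k1, k2, k3, k4, k5, k6, k7⟩⟩
      · exact ⟨(1, 1, 1), fun a b => absurd ⟨a, b⟩ hP⟩
    choose f hf using this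
    exact ⟨f, hf⟩
  obtain ⟨O, hO⟩ : ∃ O : Ω → Matrix (Fin n) (Fin n) ℝ, O = fun ω => (fO (T ω, S ω)).1 := ⟨_, rfl⟩
  obtain ⟨O', hO'⟩ : ∃ O' : Ω → Matrix (Fin n) (Fin n) ℝ, O' = fun ω => (fO (T ω, S ω)).2.1 :=
    ⟨_, rfl⟩
  obtain ⟨d, hd⟩ : ∃ d : Ω → Fin n → ℝ, d = fun ω => (fO (T ω, S ω)).2.2 := ⟨_, rfl⟩
  have key : ∀ ω, (O ω * (O ω)ᵀ = 1 ∧ (O ω)ᵀ * O ω = 1 ∧ O' ω * (O' ω)ᵀ = 1 ∧
      (O' ω)ᵀ * O' ω = 1 ∧ (∀ i, 0 < d ω i) ∧ S ω = T ω * O ω * diagonal (d ω) * O' ω ∧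
      lv (S ω) = lv (T ω) + ∑ i, Real.log (d ω i)) := by
    intro ω
    have := hfO (T ω, S ω) (hT ω) (hS ω)
    rw [hO, hO', hd]
    exact this
  have hdO : Det p Z O := by
    intro ω ω' a b e
    rw [hO]
    simp only
    rw [hdT ω ω' a b e, hdS ω ω' a b e]
  have hdd : Det p Z d := by
    intro ω ω' a b e
    rw [hd]
    simp only
    rw [hdT ω ω' a b e, hdS ω ω' a b e]
  have hdU : Det p Z (fun ω => T ω * O ω) := by
    intro ω ω' a b e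
    simp only
    rw [hdT ω ω' a b e, hdO ω ω' a b e]
  have hdV : Det p Z (fun ω => T ω * O ω * diagonal (d ω)) := by
    intro ω ω' a b e
    simp only
    rw [hdT ω ω' a b e, hdO ω ω' a b e, hdd ω ω' a b e]
  have detU : ∀ ω, (T ω * O ω).det ≠ 0 := fun ω => by
    rw [Matrix.det_mul]
    exact mul_ne_zero (hT ω) (det_orth (key ω).1)
  have detV : ∀ ω, (T ω * O ω * diagonal (d ω)).det ≠ 0 := fun ω => by
    rw [Matrix.det_mul]
    exact mul_ne_zero (detU ω) (det_diag (key ω).2.2.2.2.1)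
  -- the first step
  have s1 := CH_inc h0 h1 x Z hdS hdV hS (c := n) (by
    intro ω i
    obtain ⟨k1, k2, k3, k4, k5, k6, k7⟩ := key ω
    have e1 : (T ω * O ω * diagonal (d ω))⁻¹ * S ω = O' ω := by
      rw [k6, ← Matrix.mul_assoc, Matrix.nonsing_inv_mul _ (isUnit_iff_ne_zero.2 (detV ω)),
        Matrix.one_mul]
    rw [e1]
    exact row_one (orth_entry k3) i)
  -- the second step
  have s2 := CH_axis h0 h1 x Z hdU hdd (fun ω => (key ω).2.2.2.2.1) (a := n * c) (by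
    intro ω i
    obtain ⟨k1, k2, k3, k4, k5, k6, k7⟩ := key ω
    refine axis_ge (hT ω) k1 k3 k5 ?_ hc i
    rw [← k6]
    exact h ω)
  -- the third step
  have s3 := CH_inc h0 h1 x Z hdU hdT detU (c := n) (by
    intro ω i
    obtain ⟨k1, k2, k3, k4, k5, k6, k7⟩ := key ω
    have e1 : (T ω)⁻¹ * (T ω * O ω) = O ω := by
      rw [← Matrix.mul_assoc, Matrix.nonsing_inv_mul _ (isUnit_iff_ne_zero.2 (hT ω)),
        Matrix.one_mul]
    rw [e1]
    exact row_one (orth_entry k1) i)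
  have m1 := mono_abs h0 (fun ω => cl (T ω) (x ω)) (fun ω => cl (T ω * O ω) (x ω))
    (fun ω => cl (T ω * O ω * diagonal (d ω)) (x ω)) Z
  have m2 := mono_abs h0 (fun ω => cl (T ω) (x ω))
    (fun ω => cl (T ω * O ω * diagonal (d ω)) (x ω)) (fun ω => cl (S ω) (x ω)) Z
  have e : Ex p (fun ω => lv (S ω) - lv (T ω)) = Ex p (fun ω => ∑ i, Real.log (d ω i)) := by
    congr 1
    funext ω
    rw [(key ω).2.2.2.2.2.2]
    ring
  rw [e]
  unfold Cc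
  linarith

end Pool.FAD
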