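import Pool.Agent.H5.FAD.Cnt

/-!
# The sum and the intersection of two bodies; supermodularity
-/

set_option autoImplicit false

namespace Pool.FAD

open Matrix
open Finset Real
open Pool.Agent.H49.Ent Pool.Agent.H32.Dense

variable {n : ℕ} {Ω ζ : Type} [Fintype Ω] {p : Ω → ℝ}

/-- Sum `S` and intersection `M` of two parallelepipeds `A`, `B`, up to constants. -/
def IsPair (A B S M : Matrix (Fin n) (Fin n) ℝ) : Prop :=
  S.det ≠ 0 ∧ M.det ≠ 0 ∧ lv S + lv M = lv A + lv B ∧ Inc n A S ∧ Inc n B S ∧ Inc n M A ∧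
    Inc n M B ∧ (∀ c : ℝ, 0 ≤ c → ∀ T : Matrix (Fin n) (Fin n) ℝ, Inc c T A → Inc c T B →
      Inc (n * c) T M) ∧
    ∀ x x' : Fin n → ℝ, cl A x = cl A x' → cl B x = cl B x' →
      ∀ i, |((cl M x i - cl M x' i : ℤ) : ℝ)| ≤ n + 1

theorem exists_pair (A B : Matrix (Fin n) (Fin n) ℝ) (hA : A.det ≠ 0) (hB : B.det ≠ 0) :
    ∃ S M, IsPair A B S M := by
  obtain ⟨O, O', d, k1, k2, k3, k4, k5, k6, k7⟩ := exists_frame A B hA hB
  have hAu := isUnit_iff_ne_zero.2 hA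
  have hW : (A * O).det ≠ 0 := by
    rw [Matrix.det_mul]
    exact mul_ne_zero hA (det_orth k1)
  have hWu := isUnit_iff_ne_zero.2 hW
  have lW : lv (A * O) = lv A := by
    unfold lv
    have h7 : |O.det| * |O.det| = 1 := by
      have := congrArg Matrix.det k1
      rw [Matrix.det_mul, Matrix.det_transpose, Matrix.det_one] at this
      rw [← abs_mul, this, abs_one]
    have h8 : |O.det| = 1 := by nlinarith [abs_nonneg O.det]
    rw [Matrix.det_mul, abs_mul, h8, mul_one]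
  have lD : ∀ e : Fin n → ℝ, (∀ i, 0 < e i) → lv (A * O * diagonal e) =
      lv A + ∑ i, Real.log (e i) := by
    intro e he
    have hd : 0 < ∏ i, e i := Finset.prod_pos fun i _ => he i
    rw [← lW]
    unfold lv
    rw [Matrix.det_mul, abs_mul, Matrix.det_diagonal, abs_of_pos hd,
      Real.log_mul (abs_pos.2 hW).ne' hd.ne', Real.log_prod (fun i _ => (he i).ne')]
  have hdiag : ∀ e : Fin n → ℝ, (∀ i, 0 < e i) → (A * O * diagonal e).det ≠ 0 := by
    intro e he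
    rw [Matrix.det_mul]
    exact mul_ne_zero hW (det_diag he)
  have hinv : ∀ e : Fin n → ℝ, (∀ i, 0 < e i) → (A * O * diagonal e)⁻¹ =
      diagonal (fun i => (e i)⁻¹) * (Oᵀ * A⁻¹) := by
    intro e he
    rw [Matrix.mul_inv_rev, Matrix.mul_inv_rev, inv_of_orth k1, inv_diag he]
  -- inverse of `B`
  have hBi : B⁻¹ = O'ᵀ * (diagonal (fun i => (d i)⁻¹) * (Oᵀ * A⁻¹)) := by
    rw [k6, Matrix.mul_inv_rev, inv_of_orth k3, hinv d k5]
  have hOB : O' * B⁻¹ = diagonal (fun i => (d i)⁻¹) * (Oᵀ * A⁻¹) := by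
    rw [hBi, ← Matrix.mul_assoc, k3, Matrix.one_mul]
  have hAB : A⁻¹ * B = O * diagonal d * O' := by
    rw [k6]
    simp only [← Matrix.mul_assoc]
    rw [Matrix.nonsing_inv_mul _ hAu, Matrix.one_mul]
  have hAA : A⁻¹ * A = 1 := Matrix.nonsing_inv_mul _ hAu
  have kt : ∀ i j, |Oᵀ i j| ≤ 1 := fun i j => by
    rw [Matrix.transpose_apply]
    exact orth_entry k1 j i
  have kt' : ∀ i j, |O'ᵀ i j| ≤ 1 := fun i j => by
    rw [Matrix.transpose_apply]
    exact orth_entry k3 j i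
  obtain ⟨s, hs⟩ : ∃ s : Fin n → ℝ, s = fun i => max 1 (d i) := ⟨_, rfl⟩
  obtain ⟨m, hm⟩ : ∃ m : Fin n → ℝ, m = fun i => min 1 (d i) := ⟨_, rfl⟩
  have s1 : ∀ i, 1 ≤ s i := fun i => by rw [hs]; exact le_max_left _ _
  have sd : ∀ i, d i ≤ s i := fun i => by rw [hs]; exact le_max_right _ _
  have m1 : ∀ i, m i ≤ 1 := fun i => by rw [hm]; exact min_le_left _ _
  have md : ∀ i, m i ≤ d i := fun i => by rw [hm]; exact min_le_right _ _
  have s0 : ∀ i, 0 < s i := fun i => lt_of_lt_of_le one_pos (s1 i)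
  have m0 : ∀ i, 0 < m i := fun i => by rw [hm]; exact lt_min one_pos (k5 i)
  have sm : ∀ i, s i * m i = d i := fun i => by
    rw [hs, hm]
    simp only
    rcases le_total 1 (d i) with h | h
    · rw [max_eq_right h, min_eq_left h, mul_one]
    · rw [max_eq_left h, min_eq_right h, one_mul]
  refine ⟨A * O * diagonal s, A * O * diagonal m, hdiag s s0, hdiag m m0, ?_, ?_, ?_, ?_, ?_, ?_,
    ?_⟩
  · rw [lD s s0, lD m m0, k7]
    have : ∑ i, Real.log (d i) = ∑ i, Real.log (s i) + ∑ i, Real.log (m i) := by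
      rw [← Finset.sum_add_distrib]
      refine Finset.sum_congr rfl fun i _ => ?_
      rw [← sm i, Real.log_mul (s0 i).ne' (m0 i).ne']
    rw [this]
    ring
  · -- `A` in `S`
    intro i
    refine row_one (fun i j => ?_) i
    rw [hinv s s0, Matrix.mul_assoc, Matrix.mul_assoc, hAA, Matrix.mul_one,
      Matrix.diagonal_mul, abs_mul, abs_of_pos (inv_pos.2 (s0 i))]
    have e1 := inv_le_one_of_one_le₀ (s1 i)
    calc (s i)⁻¹ * |Oᵀ i j| ≤ 1 * 1 := mul_le_mul e1 (kt i j) (abs_nonneg _) zero_le_one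
      _ = 1 := one_mul _
  · -- `B` in `S`
    intro i
    refine row_one (fun i j => ?_) i
    have e0 : (A * O * diagonal s)⁻¹ * B =
        diagonal (fun i => (s i)⁻¹) * (diagonal d * O') := by
      rw [hinv s s0, Matrix.mul_assoc, Matrix.mul_assoc, hAB]
      simp only [← Matrix.mul_assoc]
      rw [Matrix.mul_assoc _ Oᵀ O, k2, Matrix.mul_one]
    rw [e0, Matrix.diagonal_mul, Matrix.diagonal_mul, ← mul_assoc, abs_mul, abs_mul,
      abs_of_pos (inv_pos.2 (s0 i)), abs_of_pos (k5 i)]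
    have e1 : (s i)⁻¹ * d i ≤ 1 := by
      rw [inv_mul_le_iff₀ (s0 i), mul_one]
      exact sd i
    calc (s i)⁻¹ * d i * |O' i j| ≤ 1 * 1 :=
          mul_le_mul e1 (orth_entry k3 i j) (abs_nonneg _) zero_le_one
      _ = 1 := one_mul _
  · -- `M` in `A`
    intro i
    refine row_one (fun i j => ?_) i
    rw [← Matrix.mul_assoc, ← Matrix.mul_assoc, hAA, Matrix.one_mul, Matrix.mul_diagonal, abs_mul,
      abs_of_pos (m0 j)]
    calc |O i j| * m j ≤ 1 * 1 := mul_le_mul (orth_entry k1 i j) (m1 j) (m0 j).le zero_le_one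
      _ = 1 := one_mul _
  · -- `M` in `B`
    intro i
    refine row_one (fun i j => ?_) i
    have e0 : B⁻¹ * (A * O * diagonal m) = O'ᵀ * diagonal (fun i => (d i)⁻¹ * m i) := by
      rw [hBi]
      have : diagonal (fun i => (d i)⁻¹ * m i) = diagonal (fun i => (d i)⁻¹) * diagonal m := by
        rw [Matrix.diagonal_mul_diagonal]
      rw [this]
      simp only [Matrix.mul_assoc]
      congr 2
      simp only [← Matrix.mul_assoc]
      rw [Matrix.mul_assoc Oᵀ, hAA, Matrix.mul_one, k2, Matrix.one_mul]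
    rw [e0, Matrix.mul_diagonal, abs_mul]
    have e1 : |(d j)⁻¹ * m j| ≤ 1 := by
      rw [abs_of_pos (mul_pos (inv_pos.2 (k5 j)) (m0 j)), inv_mul_le_iff₀ (k5 j), mul_one]
      exact md j
    calc |O'ᵀ i j| * |(d j)⁻¹ * m j| ≤ 1 * 1 :=
          mul_le_mul (kt' i j) e1 (abs_nonneg _) zero_le_one
      _ = 1 := one_mul _
  · -- bodies in the intersection
    intro c hc T hTA hTB i
    have e0 : (A * O * diagonal m)⁻¹ * T = diagonal (fun i => (m i)⁻¹) * (Oᵀ * (A⁻¹ * T)) := by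
      rw [hinv m m0]
      simp only [Matrix.mul_assoc]
    have rA : ∑ j, |(Oᵀ * (A⁻¹ * T)) i j| ≤ n * c := row_mul hc (row_one kt i) hTA
    have rB : ∑ j, |(O' * (B⁻¹ * T)) i j| ≤ n * c := row_mul hc (row_one (orth_entry k3) i) hTB
    rcases le_total 1 (d i) with h | h
    · have hmi : m i = 1 := by rw [hm]; exact min_eq_left h
      refine le_trans (le_of_eq ?_) rA
      refine Finset.sum_congr rfl fun j _ => ?_
      rw [e0, Matrix.diagonal_mul, hmi, inv_one, one_mul]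
    · have hmi : m i = d i := by rw [hm]; exact min_eq_right h
      refine le_trans (le_of_eq ?_) rB
      have e2 : O' * (B⁻¹ * T) = diagonal (fun i => (d i)⁻¹) * (Oᵀ * (A⁻¹ * T)) := by
        rw [← Matrix.mul_assoc, hOB, Matrix.mul_assoc, Matrix.mul_assoc]
      refine Finset.sum_congr rfl fun j _ => ?_
      rw [e0, e2, Matrix.diagonal_mul, Matrix.diagonal_mul, hmi]
  · -- the cell in the intersection
    intro x x' eA eB i
    refine floor_sub_le ?_
    have pA : |(Oᵀ *ᵥ (A⁻¹ *ᵥ x)) i - (Oᵀ *ᵥ (A⁻¹ *ᵥ x')) i| ≤ n := by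
      have h1 : (Oᵀ *ᵥ (A⁻¹ *ᵥ x)) i - (Oᵀ *ᵥ (A⁻¹ *ᵥ x')) i =
          ∑ j, Oᵀ i j * ((A⁻¹ *ᵥ x) j - (A⁻¹ *ᵥ x') j) := by
        have : Oᵀ *ᵥ (A⁻¹ *ᵥ x) - Oᵀ *ᵥ (A⁻¹ *ᵥ x') = Oᵀ *ᵥ (A⁻¹ *ᵥ x - A⁻¹ *ᵥ x') := by
          rw [Matrix.mulVec_sub]
        have := congrFun this i
        rw [Pi.sub_apply] at this
        rw [this]
        rfl
      rw [h1]
      refine (Finset.abs_sum_le_sum_abs _ _).trans ?_
      calc ∑ j, |Oᵀ i j * ((A⁻¹ *ᵥ x) j - (A⁻¹ *ᵥ x') j)| ≤ ∑ _j : Fin n, (1 : ℝ) := by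
            refine Finset.sum_le_sum fun j _ => ?_
            rw [abs_mul]
            calc |Oᵀ i j| * |(A⁻¹ *ᵥ x) j - (A⁻¹ *ᵥ x') j| ≤ 1 * 1 :=
                  mul_le_mul (kt i j) (abs_sub_of_floor (congrFun eA j)) (abs_nonneg _) zero_le_one
              _ = 1 := one_mul _
        _ = n := by simp
    have pB : |(O' *ᵥ (B⁻¹ *ᵥ x)) i - (O' *ᵥ (B⁻¹ *ᵥ x')) i| ≤ n := by
      have h1 : (O' *ᵥ (B⁻¹ *ᵥ x)) i - (O' *ᵥ (B⁻¹ *ᵥ x')) i =
          ∑ j, O' i j * ((B⁻¹ *ᵥ x) j - (B⁻¹ *ᵥ x') j) := by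
        have : O' *ᵥ (B⁻¹ *ᵥ x) - O' *ᵥ (B⁻¹ *ᵥ x') = O' *ᵥ (B⁻¹ *ᵥ x - B⁻¹ *ᵥ x') := by
          rw [Matrix.mulVec_sub]
        have := congrFun this i
        rw [Pi.sub_apply] at this
        rw [this]
        rfl
      rw [h1]
      refine (Finset.abs_sum_le_sum_abs _ _).trans ?_
      calc ∑ j, |O' i j * ((B⁻¹ *ᵥ x) j - (B⁻¹ *ᵥ x') j)| ≤ ∑ _j : Fin n, (1 : ℝ) := by
            refine Finset.sum_le_sum fun j _ => ?_
            rw [abs_mul]
            calc |O' i j| * |(B⁻¹ *ᵥ x) j - (B⁻¹ *ᵥ x') j| ≤ 1 * 1 :=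
                  mul_le_mul (orth_entry k3 i j) (abs_sub_of_floor (congrFun eB j)) (abs_nonneg _)
                    zero_le_one
              _ = 1 := one_mul _
        _ = n := by simp
    have eM : ∀ y : Fin n → ℝ, ((A * O * diagonal m)⁻¹ *ᵥ y) i =
        (m i)⁻¹ * (Oᵀ *ᵥ (A⁻¹ *ᵥ y)) i := by
      intro y
      rw [hinv m m0, ← Matrix.mulVec_mulVec, ← Matrix.mulVec_mulVec, Matrix.mulVec_diagonal]
    have eB' : ∀ y : Fin n → ℝ, (O' *ᵥ (B⁻¹ *ᵥ y)) i = (d i)⁻¹ * (Oᵀ *ᵥ (A⁻¹ *ᵥ y)) i := by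
      intro y
      rw [Matrix.mulVec_mulVec, hOB, ← Matrix.mulVec_mulVec, ← Matrix.mulVec_mulVec,
        Matrix.mulVec_diagonal]
    rw [eM, eM]
    rcases le_total 1 (d i) with h | h
    · have hmi : m i = 1 := by rw [hm]; exact min_eq_left h
      rw [hmi, inv_one, one_mul, one_mul]
      exact pA
    · have hmi : m i = d i := by rw [hm]; exact min_eq_right h
      rw [hmi, ← eB', ← eB']
      exact pB

end Pool.FAD
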