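import Mathlib

/-!
# Singular value decomposition of an invertible real matrix
-/

set_option autoImplicit false

namespace Pool.FAD

open Matrix

variable {n : ℕ}

/-- The singular value decomposition of an invertible matrix. -/
theorem exists_svd (A : Matrix (Fin n) (Fin n) ℝ) (hA : A.det ≠ 0) :
    ∃ (O O' : Matrix (Fin n) (Fin n) ℝ) (d : Fin n → ℝ), O * Oᵀ = 1 ∧ Oᵀ * O = 1 ∧
      O' * O'ᵀ = 1 ∧ O'ᵀ * O' = 1 ∧ (∀ i, 0 < d i) ∧ A = O * diagonal d * O' := by
  have hps := Matrix.posSemidef_self_mul_conjTranspose A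
  obtain ⟨S, hS⟩ : ∃ S, S = A * Aᴴ := ⟨_, rfl⟩
  rw [← hS] at hps
  have hH := hps.1
  have hdet : S.det = A.det ^ 2 := by
    rw [hS, Matrix.det_mul, Matrix.det_conjTranspose, star_trivial]
    ring
  have hprod := hH.det_eq_prod_eigenvalues
  have hev : ∀ i, 0 < hH.eigenvalues i := by
    intro i
    refine lt_of_le_of_ne (hps.eigenvalues_nonneg i) fun h => ?_
    have h1 : ∏ j, (hH.eigenvalues j : ℝ) = 0 := Finset.prod_eq_zero (Finset.mem_univ i) h.symm
    have h2 : S.det = 0 := by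
      rw [hprod]
      exact_mod_cast h1
    rw [hdet] at h2
    exact hA (by simpa using h2)
  obtain ⟨U, hU⟩ : ∃ U : Matrix (Fin n) (Fin n) ℝ, U = hH.eigenvectorUnitary := ⟨_, rfl⟩
  have hU1 : U * Uᵀ = 1 := by
    have := (Matrix.mem_unitaryGroup_iff (A := (hH.eigenvectorUnitary : Matrix (Fin n) (Fin n) ℝ))).1
      hH.eigenvectorUnitary.2
    rwa [Matrix.star_eq_conjTranspose, Matrix.conjTranspose_eq_transpose_of_trivial, ← hU] at this
  have hU2 : Uᵀ * U = 1 := by
    have := (Matrix.mem_unitaryGroup_iff' (A := (hH.eigenvectorUnitary : Matrix (Fin n) (Fin n) ℝ))).1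
      hH.eigenvectorUnitary.2
    rwa [Matrix.star_eq_conjTranspose, Matrix.conjTranspose_eq_transpose_of_trivial, ← hU] at this
  have hsp : S = U * diagonal hH.eigenvalues * Uᵀ := by
    have h := hH.spectral_theorem
    rw [Unitary.conjStarAlgAut_apply] at h
    rw [Matrix.star_eq_conjTranspose, Matrix.conjTranspose_eq_transpose_of_trivial, ← hU] at h
    exact h
  obtain ⟨d, hd⟩ : ∃ d : Fin n → ℝ, d = fun i => Real.sqrt (hH.eigenvalues i) := ⟨_, rfl⟩
  have hd0 : ∀ i, 0 < d i := fun i => by rw [hd]; exact Real.sqrt_pos.2 (hev i)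
  have hdd : ∀ i, d i * d i = hH.eigenvalues i := fun i => by
    rw [hd]
    exact Real.mul_self_sqrt (hev i).le
  have hDD : diagonal d * diagonal d = diagonal hH.eigenvalues := by
    rw [Matrix.diagonal_mul_diagonal]
    congr 1
    funext i
    exact hdd i
  have hDi : diagonal d * diagonal (fun i => (d i)⁻¹) = 1 := by
    rw [Matrix.diagonal_mul_diagonal, ← Matrix.diagonal_one]
    congr 1
    funext i
    exact mul_inv_cancel₀ (hd0 i).ne'
  have hDi' : diagonal (fun i => (d i)⁻¹) * diagonal d = 1 := by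
    rw [Matrix.diagonal_mul_diagonal, ← Matrix.diagonal_one]
    congr 1
    funext i
    exact inv_mul_cancel₀ (hd0 i).ne'
  obtain ⟨O', hO'⟩ : ∃ O' : Matrix (Fin n) (Fin n) ℝ,
    O' = diagonal (fun i => (d i)⁻¹) * Uᵀ * A := ⟨_, rfl⟩
  have h1 : O' * O'ᵀ = 1 := by
    have e1 : O'ᵀ = Aᵀ * U * diagonal (fun i => (d i)⁻¹) := by
      rw [hO', Matrix.transpose_mul, Matrix.transpose_mul, Matrix.transpose_transpose,
        Matrix.diagonal_transpose, Matrix.mul_assoc]
    have e2 : A * Aᵀ = U * diagonal hH.eigenvalues * Uᵀ := by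
      rw [← hsp, hS, Matrix.conjTranspose_eq_transpose_of_trivial]
    calc O' * O'ᵀ = diagonal (fun i => (d i)⁻¹) * (Uᵀ * (A * Aᵀ) * U) *
          diagonal (fun i => (d i)⁻¹) := by
          rw [e1, hO']
          simp only [Matrix.mul_assoc]
      _ = diagonal (fun i => (d i)⁻¹) * ((Uᵀ * U) * diagonal hH.eigenvalues * (Uᵀ * U)) *
          diagonal (fun i => (d i)⁻¹) := by
          rw [e2]
          simp only [Matrix.mul_assoc]
      _ = diagonal (fun i => (d i)⁻¹) * diagonal d * (diagonal d *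
          diagonal (fun i => (d i)⁻¹)) := by
          rw [hU2, Matrix.one_mul, Matrix.mul_one, ← hDD]
          simp only [Matrix.mul_assoc]
      _ = 1 := by rw [hDi, hDi', Matrix.one_mul]
  have h2 : O'ᵀ * O' = 1 := mul_eq_one_comm.1 h1
  refine ⟨U, O', d, hU1, hU2, h1, h2, hd0, ?_⟩
  calc A = (U * Uᵀ) * A := by rw [hU1, Matrix.one_mul]
    _ = U * ((diagonal d * diagonal (fun i => (d i)⁻¹)) * (Uᵀ * A)) := by
        rw [hDi, Matrix.one_mul, Matrix.mul_assoc]
    _ = U * diagonal d * O' := by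
        rw [hO']
        simp only [Matrix.mul_assoc]

/-- The entries of an orthogonal matrix. -/
theorem orth_entry {O : Matrix (Fin n) (Fin n) ℝ} (h : O * Oᵀ = 1) (i j : Fin n) : |O i j| ≤ 1 := by
  have h1 := congrFun (congrFun h i) i
  rw [Matrix.mul_apply, Matrix.one_apply_eq] at h1
  have h2 : O i j * O i j ≤ ∑ k, O i k * Oᵀ k i := by
    refine Finset.single_le_sum (f := fun k => O i k * Oᵀ k i) (fun k _ => ?_) (Finset.mem_univ j)
    rw [Matrix.transpose_apply]
    exact mul_self_nonneg _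
  rw [h1] at h2
  rw [abs_le]
  constructor <;> nlinarith

end Pool.FAD
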